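import Pool.Agent.MP_dbc840_nt.Pade

/-!
Denominators of the approximants and passage to integers.
-/

open Polynomial Finset

namespace Pool.Agent.MP_dbc840_nt

lemma gb_prod (r : ℤ) (j : ℕ) :
    5 ^ j * gb (r / 5) j * j.factorial = (∏ s ∈ range j, (r - 5 * s) : ℤ) := by
  induction j with
  | zero => simp [gb]
  | succ j ih =>
    have := gb_succ (r / 5) j
    rw [prod_range_succ, Nat.factorial_succ]
    push_cast at ih ⊢
    linear_combination (5 ^ (j + 1) * j.factorial : ℚ) * this + (r - 5 * j : ℚ) * ih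

lemma gb_int (r : ℤ) {j V : ℕ} (h : j / 4 ≤ V) : ∃ z : ℤ, 5 ^ V * 5 ^ j * gb (r / 5) j = z := by
  obtain ⟨v, u, hu, e⟩ := Nat.exists_eq_pow_mul_and_not_dvd j.factorial_ne_zero 5 (by norm_num)
  have hv : v ≤ V := by
    have h1 := (Nat.prime_five.pow_dvd_iff_le_factorization j.factorial_ne_zero).1 ⟨u, e⟩
    exact (h1.trans (Nat.factorization_factorial_le_div_pred Nat.prime_five j)).trans h
  have u0 : 0 < u := Nat.pos_of_ne_zero fun h => hu (h ▸ dvd_zero _)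
  obtain ⟨c, d, hc⟩ : IsCoprime (5 : ℤ) u := Nat.isCoprime_iff_coprime.2
    ((Nat.Prime.coprime_iff_not_dvd Nat.prime_five).2 hu)
  obtain ⟨q, hq⟩ := Int.eq_ofNat_of_zero_le (a := c * r % u) (Int.emod_nonneg _ (by omega))
  have h1 : (u : ℤ) ∣ ∏ s ∈ range j, (r - 5 * s : ℤ) := by
    have h2 : ∏ s ∈ range j, (r - 5 * s : ℤ) ≡ ∏ s ∈ range j, 5 * (q - s : ℤ) [ZMOD u] := by
      refine Int.ModEq.prod fun s _ => ?_
      have h3 : (q : ℤ) ≡ c * r [ZMOD u] := hq ▸ Int.mod_modEq _ _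
      refine Int.ModEq.trans ?_ ((h3.sub_right s).mul_left 5).symm
      exact Int.modEq_iff_dvd.2 ⟨-d * r, by linear_combination r * hc⟩
    refine h2.dvd_iff.2 ?_
    rw [prod_mul_distrib, ← descPochhammer_eval_eq_prod_range,
      descPochhammer_eval_eq_descFactorial]
    exact Dvd.dvd.mul_left (Int.natCast_dvd_natCast.2
      (Dvd.dvd.trans ⟨5 ^ v, by rw [e, mul_comm]⟩ (Nat.factorial_dvd_descFactorial q j))) _
  obtain ⟨z, hz⟩ := h1
  obtain ⟨w, rfl⟩ := Nat.exists_eq_add_of_le hv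
  refine ⟨5 ^ w * z, mul_left_cancel₀ (show (u : ℚ) ≠ 0 by positivity) ?_⟩
  have h4 := gb_prod r j
  rw [hz, e] at h4
  push_cast at h4 ⊢
  linear_combination (5 ^ w : ℚ) * h4

lemma lift {F : ℚ[X]} {V n : ℕ} (hd : ∀ j, n < j → F.coeff j = 0)
    (h : ∀ j ≤ n, ∃ z : ℤ, 5 ^ V * 5 ^ j * F.coeff j = z) :
    ∃ G : ℤ[X], G.natDegree ≤ n ∧ ∀ x : ℝ, aeval x G = 5 ^ V * aeval (5 * x) F := by
  choose! z hz using h
  refine ⟨∑ j ∈ range (n + 1), monomial j (z j), natDegree_sum_le_of_forall_le _ _ fun j hj =>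
    (natDegree_monomial_le _).trans (Nat.lt_succ_iff.1 (mem_range.1 hj)), fun x => ?_⟩
  rw [aeval_eq_sum_range' (Nat.lt_succ_iff.2 (natDegree_le_iff_coeff_eq_zero.2 hd)), map_sum,
    mul_sum]
  refine sum_congr rfl fun j hj => ?_
  have : (5 : ℝ) ^ V * 5 ^ j * F.coeff j = z j := by
    exact_mod_cast hz j (Nat.lt_succ_iff.1 (mem_range.1 hj))
  rw [aeval_monomial, eq_intCast, ← this, Rat.smul_def]
  ring

lemma PP_lift (e : ℤ) {m n V : ℕ} (h : m / 4 ≤ V) : ∃ G : ℤ[X], G.natDegree ≤ m ∧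
    ∀ x : ℝ, aeval x G = 5 ^ V * aeval (5 * x) (PP (m - e / 5) n m) := by
  refine lift (fun j hj => by rw [PP_coeff, if_neg (by omega)]) fun j hj => ?_
  obtain ⟨z, hz⟩ := gb_int (5 * n + e) (show j / 4 ≤ V by omega)
  refine ⟨z * (m + n - j).choose n, ?_⟩
  rw [PP_coeff, if_pos hj, show (n : ℚ) + m - (m - e / 5) = (5 * n + e : ℤ) / 5 by push_cast; ring,
    ← mul_assoc, hz]
  push_cast; rfl

lemma QQ_lift (e : ℤ) {m n V : ℕ} (i : ℕ) (h : n / 4 ≤ V) : ∃ G : ℤ[X], G.natDegree ≤ n ∧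
    ∀ x : ℝ, aeval x G = 5 ^ V * aeval (5 * x) (QQ (m - e / 5) n i) := by
  refine lift (fun j hj => by rw [QQ_coeff, if_neg (by omega)]) fun j hj => ?_
  obtain ⟨z, hz⟩ := gb_int (5 * m - e) (show j / 4 ≤ V by omega)
  refine ⟨z * (i + n - j).choose i, ?_⟩
  rw [QQ_coeff, if_pos hj, show (m : ℚ) - e / 5 = (5 * m - e : ℤ) / 5 by push_cast; ring,
    ← mul_assoc, hz]
  push_cast; rfl

/-- The homogeneous form of a polynomial. -/
def hom (G : ℤ[X]) (n : ℕ) (a b : ℤ) : ℤ := ∑ j ∈ range (n + 1), G.coeff j * a ^ j * b ^ (n - j)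

lemma hom_eq {R : Type} [CommRing R] {G : ℤ[X]} {n : ℕ} (hd : G.natDegree ≤ n) {a b : ℤ} {x : R}
    (h : b * x = a) : (hom G n a b : R) = b ^ n * aeval x G := by
  rw [aeval_eq_sum_range' (Nat.lt_succ_iff.2 hd), hom, mul_sum, Int.cast_sum]
  refine sum_congr rfl fun j hj => ?_
  obtain ⟨d, rfl⟩ := Nat.exists_eq_add_of_le (Nat.lt_succ_iff.1 (mem_range.1 hj))
  rw [Nat.add_sub_cancel_left, zsmul_eq_mul]
  push_cast
  rw [← h]
  ring

lemma X_pow_dvd (M : ℕ) : ∀ G : ℤ[X],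
    ((fun x : ℝ => aeval x G) =O[nhdsWithin 0 (Set.Ioi 0)] fun x : ℝ => x ^ M) → X ^ M ∣ G := by
  induction M with
  | zero => simp
  | succ M ih =>
    intro G h
    have h0 : G.coeff 0 = 0 := by
      have h2 : Filter.Tendsto (fun x : ℝ => x ^ (M + 1)) (nhdsWithin 0 (Set.Ioi 0)) (nhds 0) := by
        simpa using ((continuous_pow (M + 1)).tendsto (0 : ℝ)).mono_left nhdsWithin_le_nhds
      have h3 := tendsto_nhds_unique
        ((G.continuous_aeval.tendsto 0).mono_left nhdsWithin_le_nhds) (h.trans_tendsto h2)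
      rw [← coeff_zero_eq_aeval_zero'] at h3
      simpa using h3
    obtain ⟨H, rfl⟩ := X_dvd_iff.2 h0
    rw [pow_succ']
    refine mul_dvd_mul_left _ (ih H ?_)
    refine (h.mul (Asymptotics.isBigO_refl (fun x : ℝ => x⁻¹) _)).congr' ?_ ?_ <;>
      filter_upwards [self_mem_nhdsWithin] with x hx <;> have := (Set.mem_Ioi.1 hx).ne'
    · rw [map_mul, aeval_X]; field_simp
    · rw [pow_succ, mul_inv_cancel_right₀ this]

lemma root5 {T : ℕ} {u : ZMod (3 ^ T)} {B : ℤ} (hB : ¬ 3 ∣ B) (h : u ^ 5 = B ^ 5) : u = B := by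
  obtain ⟨A, rfl⟩ := ZMod.intCast_surjective u
  have h1 : ((3 ^ T : ℕ) : ℤ) ∣ (A - B) * (A ^ 4 + A ^ 3 * B + A ^ 2 * B ^ 2 + A * B ^ 3 + B ^ 4) := by
    rw [← ZMod.intCast_zmod_eq_zero_iff_dvd]
    push_cast
    linear_combination h
  have h2 : ¬ (3 : ℤ) ∣ A ^ 4 + A ^ 3 * B + A ^ 2 * B ^ 2 + A * B ^ 3 + B ^ 4 := by
    have h3 : ∀ a b : ZMod 3, a ^ 4 + a ^ 3 * b + a ^ 2 * b ^ 2 + a * b ^ 3 + b ^ 4 = 0 → b = 0 := by
      decide
    intro h4
    refine hB ((ZMod.intCast_zmod_eq_zero_iff_dvd B 3).1 (h3 A B ?_))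
    exact_mod_cast (ZMod.intCast_zmod_eq_zero_iff_dvd _ 3).2 h4
  rw [← sub_eq_zero, ← Int.cast_sub, ZMod.intCast_zmod_eq_zero_iff_dvd]
  push_cast at h1 ⊢
  exact (Int.prime_three.coprime_iff_not_dvd.2 h2).pow_left.dvd_of_dvd_mul_right h1

lemma choose_mul_le (a b c d : ℕ) : a.choose b * c.choose d ≤ (a + c).choose (b + d) := by
  rw [Nat.add_choose_eq]
  exact single_le_sum (f := fun ij : ℕ × ℕ => a.choose ij.1 * c.choose ij.2)
    (fun _ _ => Nat.zero_le _) (mem_antidiagonal.2 rfl : (b, d) ∈ _)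

end Pool.Agent.MP_dbc840_nt
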