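import Pool.Agent.MP_dbc840_nt.Upper

/-!
The real argument: approximants at the identity `32 = 27 + 5`.
-/

open Polynomial Finset

namespace Pool.Agent.MP_dbc840_nt

lemma prod_asc (a m : ℕ) :
    ∏ j ∈ range m, ((a : ℝ) + 1 + j) = m.factorial * (a + m).choose m := by
  exact_mod_cast (Nat.ascFactorial_eq_prod_range (a + 1) m).symm.trans
    (Nat.ascFactorial_eq_factorial_mul_choose a m)

lemma RR_mid {ν : ℚ} (h0 : 0 ≤ ν) (h1 : ν ≤ 1) {m d g s : ℕ} (hm : m = d + g) (hs : Odd s) {x : ℝ}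
    (hx : 0 ≤ x) : 0 ≤ RR (m - ν) (m + s) m x ∧
      RR (m - ν) (m + s) m x * ((g + s + m).choose m * m.choose d) ≤ x ^ (g + s + 1 + m) := by
  have h0' : (0 : ℝ) ≤ ν := by exact_mod_cast h0
  have h1' : (ν : ℝ) ≤ 1 := by exact_mod_cast h1
  have c1 : (0 : ℝ) < m.choose d := by exact_mod_cast Nat.choose_pos (by omega)
  have c2 : (0 : ℝ) < (g + s + m).choose m := by exact_mod_cast Nat.choose_pos (by omega)
  have h := RR_le (gb_odd h0 h1 m hs).1 (lt_odd h0 m hs) (B := (m.choose d : ℝ)⁻¹)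
    (γ := (g + s + 1 : ℕ)) (by positivity) (fun y hy => by
      have a1 := term_le hy.le zero_le_one (show d ≤ m by omega)
      have a2 : (1 + y) ^ (-((m - ν : ℚ) : ℝ) - 1) ≤ ((1 + y) ^ m)⁻¹ := by
        rw [← Real.rpow_natCast, ← Real.rpow_neg (by positivity)]
        refine Real.rpow_le_rpow_of_exponent_le (by linarith) ?_
        push_cast
        linarith
      rw [Nat.cast_succ, add_sub_cancel_right, Real.rpow_natCast,
        show m + s = d + (g + s) by omega, pow_add, mul_right_comm]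
      refine mul_le_mul_of_nonneg_right ((mul_le_mul_of_nonneg_left a2 (by positivity)).trans ?_)
        (by positivity)
      rw [← div_eq_mul_inv, div_le_iff₀ (by positivity), le_inv_mul_iff₀ c1]
      rw [one_pow, add_comm y] at a1
      linarith) m x hx
  refine ⟨h.1, (mul_le_mul_of_nonneg_right h.2 (by positivity)).trans ?_⟩
  have h2 : ∏ j ∈ range (m + 1), (((m + s : ℕ) : ℝ) + j - (m - ν : ℚ)) / ((g + s + 1 : ℕ) + j) ≤
      (m + s).choose m / (g + s + m).choose m := by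
    have f0 : (m.factorial : ℝ) ≠ 0 := by positivity
    rw [← mul_div_mul_left _ _ f0, add_comm m s, ← prod_asc, ← prod_asc, ← prod_div_distrib,
      prod_range_succ]
    have h3 : ∀ j : ℕ, (0 : ℝ) ≤ (s + m : ℕ) + j - (m - ν : ℚ) ∧
        ((s + m : ℕ) : ℝ) + j - (m - ν : ℚ) ≤ s + 1 + j := fun j => by
      push_cast
      constructor <;> linarith [Nat.cast_nonneg (α := ℝ) s, Nat.cast_nonneg (α := ℝ) j]
    refine (mul_le_of_le_one_right (prod_nonneg fun j _ => div_nonneg (h3 j).1 (by positivity))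
      ((div_le_one (by positivity)).2 ((h3 m).2.trans ?_))).trans
      (prod_le_prod (fun j _ => div_nonneg (h3 j).1 (by positivity)) fun j _ => ?_)
    · push_cast
      linarith [Nat.cast_nonneg (α := ℝ) g]
    · rw [Nat.cast_succ]
      exact div_le_div_of_nonneg_right (h3 j).2 (by positivity)
  have h3 : ((-gb (m - ν) (m + s) : ℚ) : ℝ) * (m + s).choose m ≤ 1 := by
    exact_mod_cast (gb_odd h0 h1 m hs).2
  have h4 : (0 : ℝ) ≤ (-gb (m - ν) (m + s) : ℚ) := by exact_mod_cast (gb_odd h0 h1 m hs).1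
  rw [← Nat.cast_add, Real.rpow_natCast, mul_right_comm]
  refine mul_le_of_le_one_left (by positivity) (le_trans (mul_le_mul_of_nonneg_right
    (mul_le_mul_of_nonneg_left h2 (by positivity)) (by positivity)) (h3.trans_eq' ?_))
  field_simp

lemma num2 (t : ℕ) : 26 ≤ t →
    10 * 5 ^ (28 * t) ≤ 27 ^ (8 * t) * ((24 * t).choose (9 * t) * (9 * t).choose t) := by
  induction t using Nat.strong_induction_on with
  | _ t ih =>
    intro ht
    rcases lt_or_ge t 44 with h | h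
    · rw [Nat.choose_eq_fast_choose]
      interval_cases t <;> decide +kernel
    obtain ⟨t, rfl⟩ := Nat.exists_eq_add_of_le' (show 18 ≤ t by omega)
    have h1 := Nat.mul_le_mul (choose_mul_le (24 * t) (9 * t) 432 162)
      (choose_mul_le (9 * t) t 162 18)
    have h2 : 5 ^ 504 ≤ 27 ^ 144 * (Nat.choose 432 162 * Nat.choose 162 18) := by
      rw [Nat.choose_eq_fast_choose]; decide +kernel
    have h3 := Nat.mul_le_mul (ih t (by omega) (by omega)) h2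
    rw [show 28 * (t + 18) = 28 * t + 504 by ring, show 8 * (t + 18) = 8 * t + 144 by ring,
      show 24 * (t + 18) = 24 * t + 432 by ring, show 9 * (t + 18) = 9 * t + 162 by ring,
      pow_add, pow_add, ← mul_assoc]
    refine h3.trans (le_trans (le_of_eq ?_) (Nat.mul_le_mul_left _ h1))
    generalize Nat.choose 432 162 = A
    generalize Nat.choose 162 18 = B
    generalize 27 ^ 144 = C
    ac_rfl

lemma lower {b k e t : ℕ} {N : ℤ} (h : 3 ^ (5 * k + 3 * e) + 3 ^ b + 2 = N ^ 5)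
    (hab : b < 5 * k + 3 * e) (hb : 0 < b) (he : 1 ≤ e) (he' : e ≤ 2) (ht : 26 ≤ t)
    (hk : k ≤ 21 * t) : 15 * k ≤ 3 * b + 3 + 209 * t := by
  obtain ⟨r, hr, hs⟩ : ∃ r, r ≤ 1 ∧ Odd (7 * t + r) := by
    rcases Nat.even_or_odd' t with ⟨c, rfl | rfl⟩
    exacts [⟨1, le_rfl, 7 * c, by ring⟩, ⟨0, zero_le_one, 7 * c + 3, by ring⟩]
  obtain ⟨P, dP, hP⟩ := PP_lift e (m := 9 * t) (n := 9 * t + (7 * t + r)) (V := 4 * t) (by omega)
  obtain ⟨Q, dQ, hQ⟩ := QQ_lift e (m := 9 * t) (n := 9 * t + (7 * t + r)) (V := 4 * t) (9 * t)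
    (by omega)
  have n0 : (0 : ℚ) ≤ (e : ℤ) / 5 := by positivity
  have n1 : ((e : ℤ) / 5 : ℚ) ≤ 1 := by interval_cases e <;> norm_num
  obtain ⟨r0, r1⟩ := RR_mid n0 n1 (m := 9 * t) (d := t) (g := 8 * t) (by ring) hs (x := 5 / 27)
    (by norm_num)
  obtain ⟨p0, p1⟩ := PP_le n0 n1 (m := 9 * t) (n := 9 * t + (7 * t + r)) (by omega)
    (x := 5 / 27) (w := 1 / 3) (by norm_num) (by norm_num) (by norm_num)
  have u5 := rpow5 (x := 1 + 5 / 27) (by norm_num) e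
  have u1 : (1 : ℝ) ≤ (1 + 5 / 27) ^ (e / 5 : ℝ) := Real.one_le_rpow (by norm_num) (by positivity)
  have e1 := hom_eq (R := ℝ) dP (a := 1) (b := 27) (x := 1 / 27) (by norm_num)
  have e2 := hom_eq (R := ℝ) dQ (a := 1) (b := 27) (x := 1 / 27) (by norm_num)
  rw [hP, show (5 : ℝ) * (1 / 27) = 5 / 27 by norm_num] at e1
  rw [hQ, show (5 : ℝ) * (1 / 27) = 5 / 27 by norm_num] at e2
  rw [RR_eq, show (((e : ℤ) / 5 : ℚ) : ℝ) = e / 5 by push_cast; rfl] at r0 r1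
  have c1 : (10 : ℝ) * 5 ^ (28 * t) ≤
      27 ^ (8 * t) * ((8 * t + (7 * t + r) + 9 * t).choose (9 * t) * (9 * t).choose t) := by
    exact_mod_cast (num2 t ht).trans (Nat.mul_le_mul_left _ (Nat.mul_le_mul_right _
      (Nat.choose_le_choose _ (by omega))))
  have hd : (3 : ℤ) ^ k ∣ N * 27 ^ (7 * t + r) * hom P (9 * t) 1 27 -
      3 ^ k * 2 ^ e * hom Q (9 * t + (7 * t + r)) 1 27 := by
    refine dvd_sub (Dvd.dvd.mul_right (Dvd.dvd.mul_left ?_ _) _) ⟨_, mul_assoc _ _ _⟩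
    rw [show (27 : ℤ) = 3 ^ 3 by norm_num, ← pow_mul]
    exact pow_dvd_pow _ (by omega)
  generalize aeval (5 / 27 : ℝ) (PP _ _ _) = p at *
  generalize aeval (5 / 27 : ℝ) (QQ _ _ _) = q at *
  generalize (1 + 5 / 27 : ℝ) ^ (e / 5 : ℝ) = u at *
  generalize (((8 * t + (7 * t + r) + 9 * t).choose (9 * t) : ℝ) * (9 * t).choose t) = c at *
  have hr' : (3 : ℝ) ^ (5 * k + 3 * e) + 3 ^ b + 2 = N ^ 5 := by exact_mod_cast h
  have b0 : (3 : ℝ) ^ 1 ≤ 3 ^ b := pow_le_pow_right₀ (by norm_num) hb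
  have k0 : (0 : ℝ) < 3 ^ k := by positivity
  have a0 : (0 : ℝ) < N := (by decide : Odd 5).pow_pos_iff.1 (by rw [← hr']; positivity)
  have a2 : (N : ℝ) ≤ 5 * 3 ^ k := (by decide : Odd 5).pow_le_pow.1 (by
    have b1 : (3 : ℝ) ^ b ≤ 3 ^ (5 * k + 6) := pow_le_pow_right₀ (by norm_num) (by omega)
    have b2 : (3 : ℝ) ^ (5 * k + 3 * e) ≤ 3 ^ (5 * k + 6) :=
      pow_le_pow_right₀ (by norm_num) (by omega)
    have b3 : (1 : ℝ) ≤ (3 ^ k) ^ 5 := one_le_pow₀ (one_le_pow₀ (by norm_num))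
    rw [pow_add _ _ 6, pow_mul'] at b1 b2
    rw [← hr', mul_pow]
    generalize ((3 : ℝ) ^ k) ^ 5 = A at *
    linarith)
  have a3 : (N * u) ^ 5 - (3 ^ k * 2 ^ e) ^ 5 = (3 ^ b + 2) * (32 / 27 : ℝ) ^ e := by
    rw [mul_pow, mul_pow, u5, ← hr', pow_add, pow_mul', pow_mul]
    interval_cases e <;> ring
  have a4 : (3 ^ k * 2 ^ e : ℝ) < N * u := (by decide : Odd 5).pow_lt_pow.1 (by
    rw [← sub_pos, a3]; positivity)
  have a5 : (3 ^ k) ^ 4 * (N * u - 3 ^ k * 2 ^ e) ≤ (2 / 81 : ℝ) * 3 ^ b := by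
    have b1 : ∀ v w : ℝ, 0 ≤ v → 0 ≤ w → 5 * v ^ 4 * (w - v) ≤ w ^ 5 - v ^ 5 := fun v w hv hw => by
      have : 0 ≤ (w - v) ^ 2 * (w ^ 3 + 2 * w ^ 2 * v + 3 * w * v ^ 2 + 4 * v ^ 3) := by positivity
      linarith
    have b2 := b1 (3 ^ k * 2 ^ e) (N * u) (by positivity) (by positivity)
    rw [a3, mul_pow] at b2
    generalize N * u - (3 : ℝ) ^ k * 2 ^ e = ε at *
    interval_cases e <;> linarith
  have a6 : 0 < N * p - 3 ^ k * 2 ^ e * q ∧ q ≤ p := by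
    rcases le_or_gt q 0 with h1 | h1
    · have h2 := mul_nonneg (show (0 : ℝ) ≤ 3 ^ k * 2 ^ e by positivity) (neg_nonneg.2 h1)
      exact ⟨by linarith [mul_pos a0 p0], h1.trans p0.le⟩
    · exact ⟨by linarith [mul_nonneg a0.le r0, mul_pos (sub_pos.2 a4) h1],
        by linarith [mul_le_mul_of_nonneg_right u1 h1.le]⟩
  have e3 : ((N * 27 ^ (7 * t + r) * hom P (9 * t) 1 27 -
      3 ^ k * 2 ^ e * hom Q (9 * t + (7 * t + r)) 1 27 : ℤ) : ℝ) =
      27 ^ (9 * t + (7 * t + r)) * 5 ^ (4 * t) * (N * p - 3 ^ k * 2 ^ e * q) := by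
    push_cast at e1 e2 ⊢
    rw [e1, e2]; ring
  have a7 : (3 : ℝ) ^ k ≤
      27 ^ (9 * t + (7 * t + r)) * 5 ^ (4 * t) * (N * p - 3 ^ k * 2 ^ e * q) := by
    rw [← e3]
    exact_mod_cast Int.le_of_dvd (by rw [← Int.cast_pos (R := ℝ), e3]; have := a6.1; positivity) hd
  have a8 : (27 : ℝ) ^ (9 * t + (7 * t + r)) * 5 ^ (4 * t) * (p - u * q) ≤ 1 / 10 := by
    have c0 : (0 : ℝ) < 27 ^ (8 * t) * c := lt_of_lt_of_le (by positivity) c1
    have b1 := mul_le_mul_of_nonneg_left r1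
      (show (0 : ℝ) ≤ 27 ^ (9 * t + (7 * t + r)) * 5 ^ (4 * t) * 27 ^ (8 * t) by positivity)
    have b2 : (27 : ℝ) ^ (9 * t + (7 * t + r)) * 5 ^ (4 * t) * 27 ^ (8 * t) *
        (5 / 27) ^ (8 * t + (7 * t + r) + 1 + 9 * t) = 5 ^ (28 * t) * (5 ^ (r + 1) / 27) := by
      rw [div_pow]; field_simp; ring
    have b3 : (5 : ℝ) ^ (28 * t) * (5 ^ (r + 1) / 27) ≤ 5 ^ (28 * t) :=
      mul_le_of_le_one_right (by positivity) (by interval_cases r <;> norm_num)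
    refine le_of_mul_le_mul_right ?_ c0
    rw [b2] at b1
    generalize (27 : ℝ) ^ (9 * t + (7 * t + r)) = A at *
    generalize (5 : ℝ) ^ (28 * t) = B at *
    linarith
  have a9 : (27 : ℝ) ^ (9 * t + (7 * t + r)) * 5 ^ (4 * t) * p ≤
      46 * (27 ^ 16 * 5 ^ 4 * 3 ^ 9 * (3 / 2) ^ 16 * (86 / 81) ^ 16) ^ t := by
    have b1 := mul_le_mul_of_nonneg_left p1 (show (0 : ℝ) ≤ 27 ^ (9 * t + (7 * t + r)) *
      5 ^ (4 * t) * 3 ^ (9 * t) * (3 / 2) ^ (9 * t + (7 * t + r)) by positivity)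
    have b2 : (27 : ℝ) ^ (9 * t + (7 * t + r)) * 5 ^ (4 * t) * 3 ^ (9 * t) *
        (3 / 2) ^ (9 * t + (7 * t + r)) * ((1 / 3) ^ (9 * t) * (1 - 1 / 3) ^ (9 * t + (7 * t + r)) * p)
        = 27 ^ (9 * t + (7 * t + r)) * 5 ^ (4 * t) * p * ((3 * (1 / 3)) ^ (9 * t) *
          (3 / 2 * (1 - 1 / 3)) ^ (9 * t + (7 * t + r))) := by
      rw [mul_pow, mul_pow]
      exact (by intros; ring : ∀ A B C D E F p : ℝ,
        A * B * C * D * (E * F * p) = A * B * p * (C * E * (D * F))) _ _ _ _ _ _ _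
    rw [b2, show (3 * (1 / 3) : ℝ) = 1 by norm_num, show (3 / 2 * (1 - 1 / 3) : ℝ) = 1 by norm_num,
      one_pow, one_pow, mul_one, mul_one, show (5 / 27 * (1 / 3) + 1 : ℝ) = 86 / 81 by norm_num]
      at b1
    refine b1.trans ?_
    rw [show 9 * t + (7 * t + r) = 16 * t + r by ring]
    simp only [mul_pow _ _ t, ← pow_mul, pow_add]
    have b3 : (27 : ℝ) ^ r * (3 / 2) ^ r * (86 / 81) ^ r * (86 / 81) ^ 1 ≤ 46 := by
      interval_cases r <;> norm_num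
    refine le_trans (le_of_eq ?_) (mul_le_mul_of_nonneg_right b3 (by positivity))
    ac_rfl
  have a10 : (3 : ℝ) ^ (5 * k) ≤
      3 ^ (b + 1) * (27 ^ 16 * 5 ^ 4 * 3 ^ 9 * (3 / 2) ^ 16 * (86 / 81) ^ 16) ^ t := by
    have b1 := mul_le_mul a2 a8 (by positivity) (by positivity)
    have b2 := mul_le_mul_of_nonneg_left a6.2 (show (0 : ℝ) ≤ 27 ^ (9 * t + (7 * t + r)) *
      5 ^ (4 * t) * (N * u - 3 ^ k * 2 ^ e) by have := sub_pos.2 a4; positivity)
    have b3 := mul_le_mul a5 a9 (by positivity) (by positivity)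
    have b4 : (0 : ℝ) ≤ 3 ^ b * (27 ^ 16 * 5 ^ 4 * 3 ^ 9 * (3 / 2) ^ 16 * (86 / 81) ^ 16) ^ t := by
      positivity
    rw [pow_mul', pow_succ _ b]
    generalize (27 ^ 16 * 5 ^ 4 * 3 ^ 9 * (3 / 2) ^ 16 * (86 / 81) ^ 16 : ℝ) ^ t = S at *
    generalize (27 : ℝ) ^ (9 * t + (7 * t + r)) * 5 ^ (4 * t) = D at *
    generalize (3 : ℝ) ^ k = K at *
    have b5 : K / 2 ≤ (N * u - K * 2 ^ e) * (D * p) := by linarith
    have b6 := mul_le_mul_of_nonneg_left b5 (show 0 ≤ K ^ 4 by positivity)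
    linarith
  have a11 := pow_le_pow_left₀ (by positivity) a10 3
  rw [mul_pow, pow_right_comm _ t] at a11
  have a12 := a11.trans (mul_le_mul_of_nonneg_left (pow_le_pow_left₀ (b := 3 ^ 209) (by positivity)
    (by norm_num) t) (by positivity))
  rw [← pow_mul, ← pow_mul, ← pow_mul, ← pow_add, pow_le_pow_iff_right₀ (by norm_num)] at a12
  omega

end Pool.Agent.MP_dbc840_nt
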