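import Mathlib

/-!
Rational approximants to the binomial function.
-/

open Polynomial Finset

namespace Pool.Agent.MP_dbc840_nt

/-- Binomial coefficients with a rational upper index. -/
def gb (r : ℚ) : ℕ → ℚ
  | 0 => 1
  | k + 1 => gb r k * (r - k) / (k + 1)

lemma gb_succ (r : ℚ) (k : ℕ) : (k + 1) * gb r (k + 1) = (r - k) * gb r k := by
  rw [gb]; field_simp

lemma gb_ss (r : ℚ) (k : ℕ) : (k + 1) * gb (r + 1) (k + 1) = (r + 1) * gb r k := by
  induction k with
  | zero => simp [gb]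
  | succ k ih =>
    have h1 := gb_succ (r + 1) (k + 1)
    have h2 := gb_succ r k
    have h3 : (k + 1 : ℚ) ≠ 0 := by positivity
    refine mul_left_cancel₀ h3 ?_
    push_cast at h1 ⊢
    linear_combination (k + 1 : ℚ) * h1 + (r - k) * ih - (r + 1) * h2

lemma gb_le {r : ℚ} {N : ℕ} (h : r ≤ N) : ∀ k : ℕ, (k : ℚ) ≤ r + 1 →
    0 ≤ gb r k ∧ gb r k ≤ N.choose k := by
  intro k
  induction k with
  | zero => simp [gb]
  | succ k ih =>
    intro hk
    push_cast at hk
    obtain ⟨h1, h2⟩ := ih (by linarith)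
    have h3 : (0 : ℚ) ≤ r - k := by linarith
    have h4 : k ≤ N := by exact_mod_cast (show (k : ℚ) ≤ N by linarith)
    have h5 : (N.choose (k + 1) : ℚ) * (k + 1) = N.choose k * (N - k) := by
      rw [← Nat.cast_sub h4]; exact_mod_cast Nat.choose_succ_right_eq N k
    rw [gb]
    refine ⟨by positivity, ?_⟩
    rw [div_le_iff₀ (by positivity), h5]
    exact mul_le_mul h2 (by linarith) h3 (by positivity)

lemma gb_alt {ν : ℚ} (h0 : 0 ≤ ν) (h1 : ν ≤ 1) (m s : ℕ) :
    0 ≤ (-1) ^ s * gb (m - ν) (m + s) ∧ (-1) ^ s * gb (m - ν) (m + s) * (m + s).choose m ≤ 1 := by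
  induction s with
  | zero => simpa using gb_le (r := m - ν) (N := m) (by linarith) m (by linarith)
  | succ s ih =>
    obtain ⟨i1, i2⟩ := ih
    have h5 : ((m + s + 1).choose m : ℚ) * (s + 1) = (m + s).choose m * (m + s + 1) := by
      have := Nat.choose_mul_succ_eq (m + s) m
      rw [show m + s + 1 - m = s + 1 by omega] at this
      exact_mod_cast this.symm
    have e : (-1) ^ (s + 1) * gb (m - ν) (m + (s + 1)) =
        (-1) ^ s * gb (m - ν) (m + s) * (s + ν) / (m + s + 1) := by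
      rw [← add_assoc, gb]; push_cast; ring
    rw [e]
    refine ⟨by positivity, ?_⟩
    rw [div_mul_eq_mul_div, div_le_iff₀ (by positivity), ← add_assoc]
    have h6 : (-1) ^ s * gb (m - ν) (m + s) * (s + ν) * ((m + s + 1).choose m : ℚ) ≤
        (-1) ^ s * gb (m - ν) (m + s) * (s + 1) * ((m + s + 1).choose m : ℚ) := by gcongr
    have h7 := mul_le_mul_of_nonneg_right i2 (show (0 : ℚ) ≤ m + s + 1 by positivity)
    linear_combination h6 + h7 + (-1) ^ s * gb (m - ν) (m + s) * h5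

/-- The numerators. -/
noncomputable def PP (μ : ℚ) (n i : ℕ) : ℚ[X] :=
  ∑ l ∈ range (i + 1), monomial l (gb (n + i - μ) l * (i + n - l).choose n)

/-- The denominators. -/
noncomputable def QQ (μ : ℚ) (n i : ℕ) : ℚ[X] :=
  ∑ j ∈ range (n + 1), monomial j (gb μ j * (i + n - j).choose i)

lemma PP_coeff (μ : ℚ) (n i l : ℕ) : (PP μ n i).coeff l =
    if l ≤ i then gb (n + i - μ) l * (i + n - l).choose n else 0 := by
  simp [PP, coeff_monomial]

lemma QQ_coeff (μ : ℚ) (n i j : ℕ) : (QQ μ n i).coeff j =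
    if j ≤ n then gb μ j * (i + n - j).choose i else 0 := by
  simp [QQ, coeff_monomial]

lemma PP_zero (μ : ℚ) (n : ℕ) : PP μ n 0 = 1 := by simp [PP, gb]

lemma PP_der (μ : ℚ) (n i : ℕ) :
    derivative (PP μ n (i + 1)) = C (n + i + 1 - μ) * PP μ n i := by
  ext l
  rw [coeff_derivative, coeff_C_mul, PP_coeff, PP_coeff]
  by_cases h : l ≤ i
  · rw [if_pos h, if_pos (by omega), show i + 1 + n - (l + 1) = i + n - l by omega]
    have := gb_ss (n + i - μ) l
    push_cast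
    rw [show (n : ℚ) + (i + 1) - μ = n + i - μ + 1 by ring]
    linear_combination ((i + n - l).choose n : ℚ) * this
  · rw [if_neg h, if_neg (by omega)]; simp

lemma coeff_op (a : ℚ) (F : ℚ[X]) (j : ℕ) :
    (C a * F + (1 + X) * derivative F).coeff j = (a + j) * F.coeff j + (j + 1) * F.coeff (j + 1) := by
  rw [add_mul, one_mul, coeff_add, coeff_add, coeff_C_mul, coeff_derivative]
  cases j with
  | zero => simp
  | succ j => rw [coeff_X_mul, coeff_derivative]; push_cast; ring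

lemma QQ_der (μ : ℚ) (n i : ℕ) :
    C (i + 1 - μ) * QQ μ n (i + 1) + (1 + X) * derivative (QQ μ n (i + 1)) =
      C (n + i + 1 - μ) * QQ μ n i := by
  ext j
  rw [coeff_op, coeff_C_mul, QQ_coeff, QQ_coeff, QQ_coeff]
  by_cases h : j ≤ n
  · obtain ⟨s, rfl⟩ := Nat.exists_eq_add_of_le h
    have e : (if j + 1 ≤ j + s then gb μ (j + 1) * ((i + 1 + (j + s) - (j + 1)).choose (i + 1) : ℚ)
        else 0) = gb μ (j + 1) * ((i + s).choose (i + 1) : ℚ) := by
      split_ifs with h1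
      · rw [show i + 1 + (j + s) - (j + 1) = i + s by omega]
      · rw [show s = 0 by omega]; simp
    rw [e, if_pos h, if_pos h, show i + 1 + (j + s) - j = i + s + 1 by omega,
      show i + (j + s) - j = i + s by omega, Nat.choose_succ_succ']
    have h5 : ((i + s).choose (i + 1) : ℚ) * (i + 1) = (i + s).choose i * s := by
      have := Nat.choose_succ_right_eq (i + s) i
      rw [Nat.add_sub_cancel_left] at this
      exact_mod_cast this
    have h6 := gb_succ μ j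
    push_cast
    linear_combination ((i + s).choose (i + 1) : ℚ) * h6 + gb μ j * h5
  · rw [if_neg h, if_neg h, if_neg (by omega)]; simp

lemma QQ_der0 (μ : ℚ) (n : ℕ) :
    C (-μ) * QQ μ n 0 + (1 + X) * derivative (QQ μ n 0) = monomial n ((n - μ) * gb μ n) := by
  ext j
  rw [coeff_op, QQ_coeff, QQ_coeff, coeff_monomial]
  simp only [Nat.choose_zero_right, Nat.cast_one, mul_one]
  rcases lt_trichotomy j n with h | rfl | h
  · rw [if_pos h.le, if_pos (by omega), if_neg h.ne']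
    linear_combination gb_succ μ j
  · rw [if_pos le_rfl, if_neg (by omega), if_pos rfl]; ring
  · rw [if_neg (by omega), if_neg (by omega), if_neg h.ne]; simp

/-- The remainder. -/
noncomputable def RR (μ : ℚ) (n i : ℕ) (x : ℝ) : ℝ :=
  aeval x (PP μ n i) - (1 + x) ^ ((i : ℝ) - μ) * aeval x (QQ μ n i)

lemma RR_zero (μ : ℚ) (n i : ℕ) : RR μ n i 0 = 0 := by
  simp only [RR, add_zero, Real.one_rpow, one_mul]
  rw [← coeff_zero_eq_aeval_zero', ← coeff_zero_eq_aeval_zero', PP_coeff, QQ_coeff]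
  simp [gb, Nat.choose_symm_add]

lemma der_aux (a : ℚ) (F : ℚ[X]) {x : ℝ} (hx : 0 ≤ x) :
    HasDerivAt (fun x : ℝ => (1 + x) ^ (a : ℝ) * aeval x F)
      ((1 + x) ^ ((a : ℝ) - 1) * aeval x (C a * F + (1 + X) * derivative F)) x := by
  have h1 : (0 : ℝ) < 1 + x := by positivity
  have h2 := (((hasDerivAt_id x).const_add 1).rpow_const (p := (a : ℝ)) (Or.inl h1.ne')).mul
    (F.hasDerivAt_aeval x)
  refine h2.congr_deriv ?_
  simp only [id, map_add, map_mul, aeval_C, aeval_X, map_one, eq_ratCast]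
  rw [Real.rpow_sub_one h1.ne']
  field_simp

lemma RR_der (μ : ℚ) (n i : ℕ) {x : ℝ} (hx : 0 ≤ x) :
    HasDerivAt (RR μ n (i + 1)) ((n + (i + 1 : ℕ) - μ) * RR μ n i x) x := by
  have h := ((PP μ n (i + 1)).hasDerivAt_aeval x).sub (der_aux (i + 1 - μ) (QQ μ n (i + 1)) hx)
  rw [PP_der, QQ_der] at h
  refine (h.congr_deriv ?_).congr_of_eventuallyEq (.of_forall fun y => by simp [RR])
  simp only [RR, map_mul, aeval_C, eq_ratCast]
  push_cast
  rw [show (i : ℝ) + 1 - μ - 1 = i - μ by ring]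
  ring

lemma RR_der0 (μ : ℚ) (n : ℕ) {x : ℝ} (hx : 0 ≤ x) :
    HasDerivAt (RR μ n 0) ((n - μ) * (-gb μ n : ℚ) * (x ^ n * (1 + x) ^ (-(μ : ℝ) - 1))) x := by
  have h := (der_aux (-μ) (QQ μ n 0) hx).const_sub 1
  rw [QQ_der0] at h
  refine (h.congr_deriv ?_).congr_of_eventuallyEq (.of_forall fun y => by simp [RR, PP_zero])
  simp only [aeval_monomial, eq_ratCast]
  push_cast
  ring

lemma nn {f f' : ℝ → ℝ} (hc : ContinuousOn f (Set.Ici 0)) (hd : ∀ x, 0 < x → HasDerivAt f (f' x) x)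
    (h0 : f 0 = 0) (hp : ∀ x, 0 < x → 0 ≤ f' x) {x : ℝ} (hx : 0 ≤ x) : 0 ≤ f x := by
  have := monotoneOn_of_deriv_nonneg (convex_Ici 0) hc
    (fun y hy => (hd y (by simpa using hy)).differentiableAt.differentiableWithinAt)
    (fun y hy => by rw [(hd y (by simpa using hy)).deriv]; exact hp y (by simpa using hy))
    (Set.mem_Ici.2 le_rfl) hx hx
  rwa [h0] at this

lemma integ {f f' : ℝ → ℝ} (hd : ∀ x, 0 ≤ x → HasDerivAt f (f' x) x) (h0 : f 0 = 0) {K γ : ℝ}
    (hγ : 0 < γ) (hp : ∀ x, 0 < x → 0 ≤ f' x ∧ f' x ≤ K * x ^ (γ - 1)) {x : ℝ} (hx : 0 ≤ x) :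
    0 ≤ f x ∧ f x ≤ K / γ * x ^ γ := by
  have hc : ContinuousOn f (Set.Ici 0) := fun y hy => (hd y hy).continuousAt.continuousWithinAt
  refine ⟨nn hc (fun y hy => hd y hy.le) h0 (fun y hy => (hp y hy).1) hx, sub_nonneg.1 ?_⟩
  refine nn (f := fun x => K / γ * x ^ γ - f x) (f' := fun x => K * x ^ (γ - 1) - f' x)
    ((continuous_const.mul (Real.continuous_rpow_const hγ.le)).continuousOn.sub hc)
    (fun y hy => ?_) (by simp [h0, hγ.ne']) (fun y hy => sub_nonneg.2 (hp y hy).2) hx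
  refine (((Real.hasDerivAt_rpow_const (p := γ) (Or.inl hy.ne')).const_mul (K / γ)).sub
    (hd y hy.le)).congr_deriv ?_
  field_simp

lemma RR_le {μ : ℚ} {n : ℕ} (hc : 0 ≤ -gb μ n) (hn : μ < n) {B γ : ℝ} (hγ : 0 < γ)
    (hB : ∀ s : ℝ, 0 < s → s ^ n * (1 + s) ^ (-(μ : ℝ) - 1) ≤ B * s ^ (γ - 1)) (i : ℕ) :
    ∀ x : ℝ, 0 ≤ x → 0 ≤ RR μ n i x ∧ RR μ n i x ≤
      (-gb μ n : ℚ) * B * (∏ s ∈ range (i + 1), ((n : ℝ) + s - μ) / (γ + s)) * x ^ (γ + i) := by
  have hn' : (0 : ℝ) < n - μ := sub_pos.2 (by exact_mod_cast hn)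
  have hc' : (0 : ℝ) ≤ (-gb μ n : ℚ) := by exact_mod_cast hc
  induction i with
  | zero =>
    intro x hx
    have := integ (fun y hy => RR_der0 μ n hy) (RR_zero μ n 0) (K := (n - μ) * (-gb μ n : ℚ) * B)
      hγ (fun y hy => ⟨by positivity, by
        rw [mul_assoc _ B]; exact mul_le_mul_of_nonneg_left (hB y hy) (by positivity)⟩) hx
    refine ⟨this.1, this.2.trans_eq ?_⟩
    simp only [zero_add, prod_range_one, Nat.cast_zero, add_zero]
    ring
  | succ i ih =>
    intro x hx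
    have h1 : (0 : ℝ) ≤ n + (i + 1 : ℕ) - μ := by
      have : (0 : ℝ) ≤ (i + 1 : ℕ) := Nat.cast_nonneg _
      linarith
    have := integ (fun y hy => RR_der μ n i hy) (RR_zero μ n (i + 1))
      (K := (n + (i + 1 : ℕ) - μ) * ((-gb μ n : ℚ) * B *
        ∏ s ∈ range (i + 1), ((n : ℝ) + s - μ) / (γ + s))) (γ := γ + (i + 1 : ℕ))
      (by positivity) (fun y hy => ⟨mul_nonneg h1 (ih y hy.le).1, by
        rw [mul_assoc, show γ + (i + 1 : ℕ) - 1 = γ + i by push_cast; ring]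
        exact mul_le_mul_of_nonneg_left (ih y hy.le).2 h1⟩) hx
    refine ⟨this.1, this.2.trans_eq ?_⟩
    rw [prod_range_succ _ (i + 1)]
    ring

lemma term_le {a b : ℝ} (ha : 0 ≤ a) (hb : 0 ≤ b) {N k : ℕ} (h : k ≤ N) :
    a ^ k * b ^ (N - k) * N.choose k ≤ (a + b) ^ N := by
  rw [add_pow]
  exact single_le_sum (f := fun k => a ^ k * b ^ (N - k) * (N.choose k : ℝ))
    (fun _ _ => by positivity) (mem_range.2 (by omega))

lemma PP_le {ν : ℚ} (h0 : 0 ≤ ν) (h1 : ν ≤ 1) {m n : ℕ} (hmn : m ≤ n) {x w : ℝ} (hx : 0 ≤ x)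
    (hw : 0 ≤ w) (hw' : w ≤ 1) : 0 < aeval x (PP (m - ν) n m) ∧
      w ^ m * (1 - w) ^ n * aeval x (PP (m - ν) n m) ≤ (x * w + 1) ^ (n + 1) := by
  have hg : ∀ l ∈ range (m + 1), (0 : ℝ) ≤ gb (n + m - (m - ν)) l ∧
      (gb (n + m - (m - ν)) l : ℝ) ≤ (n + 1).choose l := fun l hl => by
    have h2 : (l : ℚ) ≤ n := by exact_mod_cast (show l ≤ n by have := mem_range.1 hl; omega)
    exact_mod_cast gb_le (r := n + m - (m - ν)) (N := n + 1) (by push_cast; linarith) l
      (by linarith)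
  have hw2 : 0 ≤ 1 - w := sub_nonneg.2 hw'
  simp only [PP, map_sum, aeval_monomial, eq_ratCast, Rat.cast_mul, Rat.cast_natCast]
  constructor
  · refine sum_pos' (fun l hl => by have := (hg l hl).1; positivity) ⟨0, by simp, ?_⟩
    simpa [gb] using Nat.choose_pos (by omega)
  · rw [add_pow, mul_sum]
    refine le_trans (sum_le_sum fun l hl => ?_) (sum_le_sum_of_subset_of_nonneg
      (range_subset_range.2 (show m + 1 ≤ n + 1 + 1 by omega)) fun _ _ _ => by positivity)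
    obtain ⟨d, rfl⟩ := Nat.exists_eq_add_of_le (Nat.lt_succ_iff.1 (mem_range.1 hl))
    have h3 := term_le hw2 hw (show n ≤ n + d by omega)
    rw [Nat.add_sub_cancel_left, sub_add_cancel, one_pow] at h3
    have h4 := mul_le_mul h3 (hg l hl).2 (hg l hl).1 zero_le_one
    have h5 := mul_le_mul_of_nonneg_left h4 (show 0 ≤ (x * w) ^ l by positivity)
    rw [show l + d + n - l = n + d by omega, one_pow, pow_add]
    rw [mul_pow] at h5 ⊢
    linear_combination h5

end Pool.Agent.MP_dbc840_nt
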