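import Mathlib

/-!
Congruence conditions and the finite range.
-/

namespace Pool.Agent.MP_dbc840_nt

/-- Some prime of the list shows that `3 ^ a + 3 ^ b + 2` is not a fifth power. -/
def nf (L : List ℕ) (a b : ℕ) : Bool :=
  L.any fun p => Nat.blt 1 (((3 ^ (a % (p - 1)) + 3 ^ (b % (p - 1)) + 2) % p) ^ ((p - 1) / 5) % p)

lemma nf_false {L : List ℕ} (hL : ∀ p ∈ L, p.Prime ∧ p % 5 = 1) {a b a' b' n : ℕ}
    (h : 3 ^ a + 3 ^ b + 2 = n ^ 5) (ha : ∀ p ∈ L, 3 ^ a' ≡ 3 ^ a [MOD p])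
    (hb : ∀ p ∈ L, 3 ^ b' ≡ 3 ^ b [MOD p]) : nf L a' b' = false := by
  rw [nf, List.any_eq_false]
  intro p hp
  obtain ⟨h1, h2⟩ := hL p hp
  have h3 : ∀ c, 3 ^ (c % (p - 1)) ≡ 3 ^ c [MOD p] := fun c => by
    have h4 := Nat.ModEq.pow_totient ((Nat.coprime_primes Nat.prime_three h1).2 (by omega))
    rw [Nat.totient_prime h1] at h4
    simpa [← pow_mul, ← pow_add, Nat.div_add_mod] using
      ((h4.pow (c / (p - 1))).mul_right (3 ^ (c % (p - 1)))).symm
  have h5 := ((Nat.mod_modEq _ p).trans ((((h3 a').trans (ha p hp)).add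
    ((h3 b').trans (hb p hp))).add_right 2)).pow ((p - 1) / 5)
  rw [h, ← pow_mul, show 5 * ((p - 1) / 5) = p - 1 by omega] at h5
  rw [Nat.blt_eq, h5, not_lt]
  rcases Nat.coprime_or_dvd_of_prime h1 n with h6 | h6
  · have h7 := Nat.ModEq.pow_totient h6.symm
    rw [Nat.totient_prime h1] at h7
    exact h7.trans_le (Nat.mod_le _ _)
  · rw [Nat.mod_eq_zero_of_dvd (dvd_pow h6 (by have := h1.two_le; omega))]
    exact zero_le_one

lemma classes {a b n : ℕ} (h : 3 ^ a + 3 ^ b + 2 = n ^ 5) (ha : a % 2 = 1) (hb : b % 2 = 1) :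
    (a % 60, b % 60) ∈ [(1, 3), (1, 33), (3, 1), (33, 1)] := by
  have h1 : ∀ c, ∀ p ∈ [11, 31, 61, 271, 1181, 4561], 3 ^ (c % 60) ≡ 3 ^ c [MOD p] := by
    intro c p hp
    have h2 : 3 ^ 60 ≡ 1 [MOD p] := by revert p; decide +kernel
    have h5 := ((h2.pow (c / 60)).mul_right (3 ^ (c % 60))).symm
    rwa [one_pow, one_mul, ← pow_mul, ← pow_add, Nat.div_add_mod] at h5
  have h3 := nf_false (by simp only [List.mem_cons, List.not_mem_nil]; norm_num) h (h1 a) (h1 b)
  have h4 : ∀ x < 60, ∀ y < 60, x % 2 = 0 ∨ y % 2 = 0 ∨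
      nf [11, 31, 61, 271, 1181, 4561] x y = true ∨ (x, y) ∈ [(1, 3), (1, 33), (3, 1), (33, 1)] := by
    decide +kernel
  rcases h4 (a % 60) (by omega) (b % 60) (by omega) with h5 | h5 | h5 | h5
  exacts [by omega, by omega, absurd (h3.symm.trans h5) Bool.false_ne_true, h5]

/-- The second list of primes. -/
def L2 : List ℕ := [41, 71, 101, 131, 151, 181, 191, 211, 241, 251]

lemma range1 : ([(1, 3), (1, 33), (3, 1), (33, 1)].all fun c => (List.range 365).all fun i =>
    (List.range (i / 3 + 1)).all fun j => Nat.ble (60 * i + c.1) (3 * (60 * j + c.2)) ||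
      nf L2 (60 * i + c.1) (60 * j + c.2)) = true := by
  decide +kernel

lemma range2 : ([(1, 3), (1, 33), (3, 1), (33, 1)].all fun c => (List.range 70).all fun i =>
    (List.range (i + 1)).all fun j => Nat.blt (3 * (60 * j + c.2)) (2 * (60 * i + c.1)) ||
      Nat.ble (60 * i + c.1) (60 * j + c.2) || nf L2 (60 * i + c.1) (60 * j + c.2)) = true := by
  decide +kernel

lemma small {a b n : ℕ} (h : 3 ^ a + 3 ^ b + 2 = n ^ 5) (ha : a % 2 = 1) (hb : b % 2 = 1)
    (hab : b < a) : (a < 21900 → a ≤ 3 * b) ∧ (a < 4200 → 3 * b < 2 * a) := by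
  have h1 := classes h ha hb
  have h2 : nf L2 a b = false := nf_false
    (by simp only [L2, List.mem_cons, List.not_mem_nil]; norm_num) h (fun _ _ => rfl) fun _ _ => rfl
  have h3 := List.all_eq_true.1 range1 _ h1
  have h4 := List.all_eq_true.1 range2 _ h1
  simp only [List.all_eq_true, List.mem_range, Bool.or_eq_true, Nat.ble_eq, Nat.blt_eq] at h3 h4
  constructor
  · intro h5
    by_contra h6
    have := h3 (a / 60) (by omega) (b / 60) (by omega)
    rw [Nat.div_add_mod, Nat.div_add_mod, h2] at this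
    simp [h6] at this
  · intro h5
    have := h4 (a / 60) (by omega) (b / 60) (by omega)
    rw [Nat.div_add_mod, Nat.div_add_mod, h2] at this
    simpa [hab.not_ge] using this

end Pool.Agent.MP_dbc840_nt
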