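import Pool.Agent.MP_dbc840_nt.Arith

/-!
The three-adic argument: approximants at the identity `23 ^ 5 = 2 + 3 ^ 10 * 109`.
-/

open Polynomial Finset Asymptotics

namespace Pool.Agent.MP_dbc840_nt

lemma gb_odd {ν : ℚ} (h0 : 0 ≤ ν) (h1 : ν ≤ 1) (m : ℕ) {s : ℕ} (hs : Odd s) :
    0 ≤ -gb (m - ν) (m + s) ∧ -gb (m - ν) (m + s) * (m + s).choose m ≤ 1 := by
  simpa [hs.neg_one_pow] using gb_alt h0 h1 m s

lemma lt_odd {ν : ℚ} (h0 : 0 ≤ ν) (m : ℕ) {s : ℕ} (hs : Odd s) : m - ν < (m + s : ℕ) := by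
  have : (0 : ℚ) < s := by exact_mod_cast hs.pos
  push_cast; linarith

lemma RR_small {ν : ℚ} (h0 : 0 ≤ ν) (h1 : ν ≤ 1) (m : ℕ) {s M : ℕ} (hs : Odd s)
    (hM : M ≤ m + s + 1 + m) :
    (fun x : ℝ => RR (m - ν) (m + s) m (5 * x)) =O[nhdsWithin 0 (Set.Ioi 0)] fun x => x ^ M := by
  have h1' : (ν : ℝ) ≤ 1 := by exact_mod_cast h1
  have h := RR_le (gb_odd h0 h1 m hs).1 (lt_odd h0 m hs) (B := 1) (γ := (m + s + 1 : ℕ))
    (by positivity) (fun y hy => by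
      rw [one_mul, Nat.cast_succ, add_sub_cancel_right, Real.rpow_natCast]
      refine mul_le_of_le_one_right (by positivity)
        (Real.rpow_le_one_of_one_le_of_nonpos (by linarith) ?_)
      push_cast
      linarith [Nat.cast_nonneg (α := ℝ) m]) m
  obtain ⟨K, hK⟩ : ∃ K : ℝ, ∀ x, 0 ≤ x → ‖RR (m - ν) (m + s) m x‖ ≤ K * x ^ (m + s + 1 + m) :=
    ⟨_, fun x hx => by
      rw [Real.norm_of_nonneg (h x hx).1, ← Real.rpow_natCast, Nat.cast_add _ m]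
      exact (h x hx).2⟩
  refine IsBigO.of_bound (|K| * 5 ^ (m + s + 1 + m)) ?_
  filter_upwards [Ioo_mem_nhdsGT one_pos] with x hx
  have h2 := hx.1
  refine (hK _ (by positivity)).trans ?_
  rw [mul_pow, mul_assoc, Real.norm_of_nonneg (by positivity)]
  exact mul_le_mul (le_abs_self K) (mul_le_mul_of_nonneg_left
    (pow_le_pow_of_le_one h2.le hx.2.le hM) (by positivity)) (by positivity) (abs_nonneg K)

lemma RR_big {ν : ℚ} (h0 : 0 ≤ ν) (h1 : ν ≤ 1) (m : ℕ) {s : ℕ} (hs : Odd s) {x : ℝ} (hx : 0 < x) :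
    0 ≤ RR (m - ν) (m + s) m x ∧
      RR (m - ν) (m + s) m x * (m + s).choose m ≤ x ^ (m + s) * (1 + x) ^ (ν : ℝ) := by
  have h0' : (0 : ℝ) ≤ ν := by exact_mod_cast h0
  have h1' : (ν : ℝ) ≤ 1 := by exact_mod_cast h1
  have h2 : (0 : ℝ) < (m + s : ℕ) - (m - ν : ℚ) := sub_pos.2 (by exact_mod_cast lt_odd h0 m hs)
  have h := RR_le (gb_odd h0 h1 m hs).1 (lt_odd h0 m hs) (B := 1) h2 (fun y hy => by
      rw [one_mul, sub_sub, sub_eq_add_neg ((m + s : ℕ) : ℝ), Real.rpow_add hy, Real.rpow_natCast,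
        neg_add']
      refine mul_le_mul_of_nonneg_left (Real.rpow_le_rpow_of_nonpos hy (by linarith) ?_)
        (by positivity)
      push_cast
      linarith [Nat.cast_nonneg (α := ℝ) m]) m x hx.le
  refine ⟨h.1, (mul_le_mul_of_nonneg_right h.2 (Nat.cast_nonneg _)).trans ?_⟩
  rw [prod_eq_one fun j _ => by rw [add_sub_right_comm]; exact div_self (by positivity),
    show ((m + s : ℕ) : ℝ) - (m - ν : ℚ) + m = (m + s : ℕ) + ν by push_cast; ring,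
    Real.rpow_add hx, Real.rpow_natCast, mul_one, mul_one, mul_right_comm]
  have h3 : ((-gb (m - ν) (m + s) : ℚ) : ℝ) * (m + s).choose m ≤ 1 := by
    exact_mod_cast (gb_odd h0 h1 m hs).2
  refine (mul_le_of_le_one_left (by positivity) h3).trans ?_
  gcongr
  linarith

lemma poly_one (G : ℤ[X]) :
    (fun x : ℝ => aeval x G) =O[nhdsWithin 0 (Set.Ioi 0)] fun _ => (1 : ℝ) :=
  ((G.continuous_aeval.tendsto 0).mono_left nhdsWithin_le_nhds).isBigO_one ℝ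

lemma rpow5 {x : ℝ} (hx : 0 ≤ x) (e : ℕ) : (x ^ (e / 5 : ℝ)) ^ 5 = x ^ e := by
  rw [← Real.rpow_natCast, ← Real.rpow_mul hx, ← Real.rpow_natCast]
  congr 1
  push_cast; ring

lemma adic {m s V T : ℕ} (hs : Odd s) {P Q : ℤ[X]} {N : ℤ}
    (hP : ∀ x : ℝ, aeval x P = 5 ^ V * aeval (5 * x) (PP (m - (1 : ℤ) / 5) (m + s) m))
    (hQ : ∀ x : ℝ, aeval x Q = 5 ^ V * aeval (5 * x) (QQ (m - (1 : ℤ) / 5) (m + s) m))
    (dP : P.natDegree ≤ m + s) (dQ : Q.natDegree ≤ m + s) (hT : T ≤ 10 * (m + s + 1 + m))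
    (hN : (3 : ℤ) ^ T ∣ N ^ 5 - 2) (h3 : ¬ 3 ∣ N) :
    (3 : ℤ) ^ T ∣ N * hom P (m + s) 6436341 10 - 23 * hom Q (m + s) 6436341 10 := by
  obtain ⟨M, hM⟩ : ∃ M, M = m + s + 1 + m := ⟨_, rfl⟩
  obtain ⟨S, -, hS⟩ := QQ_lift 1 (m := 0) (n := 0 + (2 * M + 1)) 0 le_rfl
  obtain ⟨U, hU⟩ : ∃ U, U = (0 + (2 * M + 1)) / 4 := ⟨_, rfl⟩
  rw [← hU] at hS
  have n0 : (0 : ℚ) ≤ (1 : ℤ) / 5 := by norm_num
  have n1 : ((1 : ℤ) / 5 : ℚ) ≤ 1 := by norm_num
  have r1 := RR_small n0 n1 m hs hM.le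
  have r2 := RR_small n0 n1 0 (odd_two_mul_add_one M) (M := M) (by omega)
  have d1 : X ^ M ∣ P * S - 5 ^ U * Q := by
    refine X_pow_dvd M _ (IsBigO.congr' (((r1.mul (poly_one S)).const_mul_left (5 ^ V)).sub
      ((r2.mul (poly_one Q)).const_mul_left (5 ^ U))) (.of_forall fun x => ?_) (by simp))
    simp only [map_sub, map_mul, map_pow, map_ofNat, hP, hQ, hS, RR, PP_zero, map_one]
    push_cast
    ring_nf
  have d2 : X ^ M ∣ (5 ^ U) ^ 5 - (1 + 5 * X) * S ^ 5 := by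
    have r3 := r2.trans ((isBigO_refl _ _).congr_left fun x : ℝ => aeval_X_pow (R := ℤ) x)
      |>.trans (poly_one (X ^ M))
    have r4 : (fun x : ℝ => RR ((0 : ℕ) - (1 : ℤ) / 5) (0 + (2 * M + 1)) 0 (5 * x) - 1)
      =O[nhdsWithin 0 (Set.Ioi 0)] fun _ => (1 : ℝ) := r3.sub (isBigO_refl _ _)
    have r5 := ((((r4.pow 4).congr_right fun _ => one_pow 4).sub
      ((r4.pow 3).congr_right fun _ => one_pow 3)).add
      ((r4.pow 2).congr_right fun _ => one_pow 2)).sub r4 |>.add (isBigO_refl _ _)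
    refine X_pow_dvd M _ (IsBigO.congr' ((r2.mul r5).const_mul_left ((5 ^ U) ^ 5)) ?_ (by simp))
    filter_upwards [self_mem_nhdsWithin] with x hx
    have h1 := rpow5 (show 0 ≤ 1 + 5 * x by linarith [Set.mem_Ioi.1 hx]) 1
    simp only [map_sub, map_mul, map_pow, map_add, aeval_X, hS, RR, PP_zero, map_one, map_ofNat]
    push_cast at h1 ⊢
    rw [show (0 : ℝ) - (0 - 1 / 5) = 1 / 5 by ring]
    linear_combination (-(5 ^ U) ^ 5 * (aeval (5 * x) (QQ (0 - 1 / 5) (0 + (2 * M + 1)) 0)) ^ 5) * h1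
  obtain ⟨i, hi⟩ : IsUnit ((10 : ℕ) : ZMod (3 ^ T)) :=
    (ZMod.isUnit_iff_coprime _ _).2 (Nat.Coprime.pow_right _ (by norm_num))
  obtain ⟨y, hy, y0⟩ : ∃ y : ZMod (3 ^ T), (10 : ℤ) * y = (6436341 : ℤ) ∧ y ^ M = 0 := by
    refine ⟨(i⁻¹ : (ZMod (3 ^ T))ˣ) * (3 ^ 10 * 109), ?_, ?_⟩
    · rw [← mul_assoc, show ((10 : ℤ) : ZMod (3 ^ T)) = i by rw [hi]; push_cast; rfl, i.mul_inv]
      norm_num
    · obtain ⟨d, hd⟩ := Nat.exists_eq_add_of_le hT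
      have : (3 : ZMod (3 ^ T)) ^ T = 0 := by exact_mod_cast ZMod.natCast_self (3 ^ T)
      rw [mul_pow, mul_pow, ← pow_mul, hM, hd, pow_add 3 T, this]
      ring
  have ev : ∀ G : ℤ[X], X ^ M ∣ G → aeval y G = 0 := by
    rintro _ ⟨H, rfl⟩
    rw [map_mul, aeval_X_pow, y0, zero_mul]
  have e1 := ev _ d1
  have e2 := ev _ d2
  have e3 : (N : ZMod (3 ^ T)) ^ 5 - 2 = 0 := by
    exact_mod_cast (ZMod.intCast_zmod_eq_zero_iff_dvd (N ^ (5 : ℕ) - 2) (3 ^ T)).2 (by exact_mod_cast hN)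
  simp only [map_sub, map_mul, map_pow, map_add, aeval_X, map_one, map_ofNat] at e1 e2
  have c5 : ¬ (3 : ℤ) ∣ 5 ^ U := fun h => by
    have := Int.prime_three.dvd_of_dvd_pow h
    norm_num at this
  have e4 : 23 * aeval y S = (N * 5 ^ U : ℤ) := by
    refine root5 (fun h => (Int.prime_three.dvd_or_dvd h).elim h3 c5) ?_
    push_cast at hy e2 ⊢
    linear_combination -2 * e2 - (5 ^ U) ^ 5 * e3 - aeval y S ^ 5 * hy
  refine (Int.prime_three.coprime_iff_not_dvd.2 c5).pow_left.dvd_of_dvd_mul_left ?_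
  have e5 := (ZMod.intCast_zmod_eq_zero_iff_dvd (5 ^ U * (N * hom P (m + s) 6436341 10 -
    23 * hom Q (m + s) 6436341 10)) (3 ^ T)).1 (by
      have a1 := hom_eq dP hy
      have a2 := hom_eq dQ hy
      push_cast at a1 a2 e1 e4 ⊢
      rw [a1, a2]
      linear_combination 10 ^ (m + s) * (23 * e1 - aeval y P * e4))
  exact_mod_cast e5

lemma RR_eq (ν : ℚ) (m n : ℕ) (x : ℝ) : RR (m - ν) n m x =
    aeval x (PP (m - ν) n m) - (1 + x) ^ (ν : ℝ) * aeval x (QQ (m - ν) n m) := by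
  simp [RR]

lemma num1 (t : ℕ) : 46 * (15 * 6436341) ^ (9 * t + 1) ≤
    2 ^ (9 * t + 1) * 3 ^ (140 * t + 20) * (9 * t + 1).choose (5 * t) := by
  induction t using Nat.strong_induction_on with
  | _ t ih =>
    rcases lt_or_ge t 3 with h | h
    · rw [Nat.choose_eq_fast_choose]
      interval_cases t <;> decide +kernel
    obtain ⟨t, rfl⟩ := Nat.exists_eq_add_of_le' h
    have h1 := choose_mul_le (9 * t + 1) (5 * t) 27 15
    have h2 : (15 * 6436341) ^ 27 ≤ 2 ^ 27 * 3 ^ 420 * Nat.choose 27 15 := by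
      rw [Nat.choose_eq_fast_choose]; decide +kernel
    have h3 := Nat.mul_le_mul (ih t (by omega)) h2
    rw [show 9 * (t + 3) + 1 = 9 * t + 1 + 27 by ring, show 5 * (t + 3) = 5 * t + 15 by ring,
      show 140 * (t + 3) + 20 = 140 * t + 20 + 420 by ring, pow_add _ _ 27, pow_add 2 _ 27,
      pow_add _ _ 420, ← mul_assoc]
    refine h3.trans (le_trans (le_of_eq ?_) (Nat.mul_le_mul_left _ h1))
    ac_rfl

lemma upper {a b t : ℕ} {N : ℤ} (h : 3 ^ a + 3 ^ b + 2 = N ^ 5) (hab : b < a) (h3 : ¬ 3 ∣ N)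
    (ha : a + 1 ≤ 219 * t + 75) : b < 140 * t + 20 := by
  by_contra hb
  have hs : Odd (4 * t + 1) := ⟨2 * t, by ring⟩
  obtain ⟨V, hV⟩ : ∃ V, V = (5 * t + (4 * t + 1)) / 4 := ⟨_, rfl⟩
  obtain ⟨P, dP, hP⟩ := PP_lift 1 (m := 5 * t) (n := 5 * t + (4 * t + 1)) (V := V) (by omega)
  obtain ⟨Q, dQ, hQ⟩ := QQ_lift 1 (m := 5 * t) (n := 5 * t + (4 * t + 1)) (5 * t) hV.ge
  have dP' : P.natDegree ≤ 5 * t + (4 * t + 1) := dP.trans (Nat.le_add_right _ _)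
  have hd := adic (T := 140 * t + 20) hs hP hQ dP' dQ (by omega) (by
    rw [← h, add_sub_cancel_right]
    exact dvd_add (pow_dvd_pow _ (by omega)) (pow_dvd_pow _ (by omega))) h3
  have n0 : (0 : ℚ) ≤ (1 : ℤ) / 5 := by norm_num
  have n1 : ((1 : ℤ) / 5 : ℚ) ≤ 1 := by norm_num
  obtain ⟨r0, r1⟩ := RR_big n0 n1 (5 * t) hs (x := 6436341 / 2) (by norm_num)
  obtain ⟨p0, p1⟩ := PP_le n0 n1 (m := 5 * t) (n := 5 * t + (4 * t + 1)) (by omega)
    (x := 6436341 / 2) (w := 2 / 6436341) (by norm_num) (by norm_num) (by norm_num)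
  have u5 := rpow5 (x := 1 + 6436341 / 2) (by norm_num) 1
  have u0 : (0 : ℝ) < (1 + 6436341 / 2) ^ ((1 : ℕ) / 5 : ℝ) := by positivity
  have e1 := hom_eq (R := ℝ) dP' (a := 6436341) (b := 10) (x := 6436341 / 10) (by norm_num)
  have e2 := hom_eq (R := ℝ) dQ (a := 6436341) (b := 10) (x := 6436341 / 10) (by norm_num)
  rw [hP, show (5 : ℝ) * (6436341 / 10) = 6436341 / 2 by norm_num] at e1
  rw [hQ, show (5 : ℝ) * (6436341 / 10) = 6436341 / 2 by norm_num] at e2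
  rw [RR_eq, show (((1 : ℤ) / 5 : ℚ) : ℝ) = (1 : ℕ) / 5 by norm_num] at r0 r1
  have c1 : (46 : ℝ) * (15 * 6436341) ^ (9 * t + 1) ≤
      2 ^ (9 * t + 1) * 3 ^ (140 * t + 20) * (9 * t + 1).choose (5 * t) := by
    exact_mod_cast num1 t
  have c0 : (0 : ℝ) < (9 * t + 1).choose (5 * t) := by exact_mod_cast Nat.choose_pos (by omega)
  rw [show 5 * t + (4 * t + 1) = 9 * t + 1 by ring] at *
  generalize aeval (6436341 / 2 : ℝ) (PP _ _ _) = p at *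
  generalize aeval (6436341 / 2 : ℝ) (QQ _ _ _) = q at *
  generalize (1 + 6436341 / 2 : ℝ) ^ ((1 : ℕ) / 5 : ℝ) = u at *
  generalize ((9 * t + 1).choose (5 * t) : ℝ) = c at *
  have hr : (3 : ℝ) ^ a + 3 ^ b + 2 = N ^ 5 := by exact_mod_cast h
  have a1 : 23 / u < N := (by decide : Odd 5).pow_lt_pow.1 (by
    rw [div_pow, u5, ← hr]
    linarith [show (0 : ℝ) < 3 ^ a + 3 ^ b by positivity])
  have a2 : (N : ℝ) ≤ 3 ^ 15 * (3 ^ 43 * (241 / 100)) ^ t := (by decide : Odd 5).pow_le_pow.1 (by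
    have b1 : (3 : ℝ) ^ b ≤ 3 ^ a := pow_le_pow_right₀ (by norm_num) hab.le
    have b2 : (3 : ℝ) ^ 1 ≤ 3 ^ a := pow_le_pow_right₀ (by norm_num) (by omega)
    have b3 : (3 : ℝ) ^ (a + 1) ≤ 3 ^ (219 * t + 75) := pow_le_pow_right₀ (by norm_num) ha
    have b4 : ((3 : ℝ) ^ 219) ^ t ≤ ((3 ^ 43 * (241 / 100)) ^ 5) ^ t :=
      pow_le_pow_left₀ (by positivity) (by norm_num) t
    rw [pow_add _ (219 * t), pow_mul, pow_succ] at b3
    rw [← hr, mul_pow, pow_right_comm _ t]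
    generalize ((3 : ℝ) ^ 219) ^ t = A at *
    generalize ((3 ^ 43 * (241 / 100) : ℝ) ^ 5) ^ t = B at *
    linarith)
  have a3 : (10 : ℝ) ^ (9 * t + 1) * 5 ^ V ≤ 15 ^ (9 * t + 1) := by
    rw [show (15 : ℝ) = 10 * (3 / 2) by norm_num, mul_pow]
    refine mul_le_mul_of_nonneg_left (le_trans (pow_le_pow_left₀ (b := (3 / 2) ^ 4) (by norm_num)
      (by norm_num) V) ?_) (by positivity)
    rw [← pow_mul]
    exact pow_le_pow_right₀ (by norm_num) (by omega)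
  have a4 : 23 * q = 23 / u * (u * q) := by field_simp
  have a5 : 0 < 23 / u := by positivity
  have a6 : 0 < N * p - 23 * q := by nlinarith [mul_nonneg a5.le r0, mul_pos (sub_pos.2 a1) p0]
  have e3 : ((N * hom P (9 * t + 1) 6436341 10 - 23 * hom Q (9 * t + 1) 6436341 10 : ℤ) : ℝ) =
      10 ^ (9 * t + 1) * 5 ^ V * (N * p - 23 * q) := by
    push_cast at e1 e2 ⊢
    rw [e1, e2]; ring
  have a7 : (3 : ℝ) ^ (140 * t + 20) ≤ 15 ^ (9 * t + 1) * (N * p - 23 * q) := by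
    refine le_trans ?_ (mul_le_mul_of_nonneg_right a3 a6.le)
    rw [← e3]
    exact_mod_cast Int.le_of_dvd (by rw [← Int.cast_pos (R := ℝ), e3]; positivity) hd
  have a8 : 15 ^ (9 * t + 1) * (23 / u * (p - u * q)) ≤ 3 ^ (140 * t + 20) / 2 := by
    have b1 := mul_le_mul_of_nonneg_left r1 (show 0 ≤ 15 ^ (9 * t + 1) * (23 / u) by positivity)
    have b2 : 15 ^ (9 * t + 1) * (23 / u) * ((6436341 / 2) ^ (9 * t + 1) * u) =
        46 * (15 * 6436341) ^ (9 * t + 1) / 2 ^ (9 * t + 1) / 2 := by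
      rw [mul_pow, div_pow]; field_simp; norm_num
    have b3 : 46 * (15 * 6436341) ^ (9 * t + 1) / 2 ^ (9 * t + 1) ≤ 3 ^ (140 * t + 20) * c := by
      rw [div_le_iff₀ (by positivity)]; linarith
    refine le_of_mul_le_mul_right ?_ c0
    linarith
  have a9 : 15 ^ (9 * t + 1) * (N * p) < 3 ^ (140 * t + 20) / 2 := by
    have b0 : (0 : ℝ) < (2 / 6436341) ^ (5 * t) * (1 - 2 / 6436341) ^ (9 * t + 1) := by positivity
    have b1 := mul_le_mul a2 p1 (by positivity) (by positivity)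
    have b2 : ((15 : ℝ) ^ 9 * (3 ^ 43 * (241 / 100)) * 2 ^ 9) ^ t ≤
        (3 ^ 140 * (2 / 6436341) ^ 5 * (1 - 2 / 6436341) ^ 9) ^ t :=
      pow_le_pow_left₀ (by positivity) (by norm_num) t
    have b3 : (0 : ℝ) < (3 ^ 140 * (2 / 6436341) ^ 5 * (1 - 2 / 6436341) ^ 9) ^ t := by positivity
    have b4 := mul_le_mul_of_nonneg_left b1 (show (0 : ℝ) ≤ 15 ^ (9 * t + 1) by positivity)
    refine lt_of_mul_lt_mul_right ?_ b0.le
    rw [show (6436341 / 2 * (2 / 6436341) + 1 : ℝ) = 2 by norm_num] at b4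
    rw [mul_pow _ _ t, mul_pow _ _ t, mul_pow (_ * _) _ t, mul_pow (3 ^ 140) _ t] at b2
    rw [mul_pow _ _ t, mul_pow _ _ t] at b3
    simp only [pow_add, pow_mul, pow_one] at b4 ⊢
    generalize ((15 : ℝ) ^ 9) ^ t = A at *
    generalize (3 ^ 43 * (241 / 100) : ℝ) ^ t = B at *
    generalize ((2 : ℝ) ^ 9) ^ t = C at *
    generalize ((3 : ℝ) ^ 140) ^ t = D at *
    generalize ((2 / 6436341 : ℝ) ^ 5) ^ t = E at *
    generalize ((1 - 2 / 6436341 : ℝ) ^ 9) ^ t = F at *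
    linarith
  have a0 := mul_pos (show (0 : ℝ) < 15 ^ (9 * t + 1) by positivity) (mul_pos a5 p0)
  rw [a4] at a7
  generalize (15 : ℝ) ^ (9 * t + 1) = A at *
  generalize (3 : ℝ) ^ (140 * t + 20) = B at *
  generalize 23 / u = C at *
  linarith

end Pool.Agent.MP_dbc840_nt
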