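import Mathlib
import Pool.Agent.MP_dbc840_nt.Lower
import Pool.Agent.MP_dbc840_nt.Sieve

namespace Pool.Agent.Results.MP_dbc840_nt.Window

open Pool.Agent.MP_dbc840_nt

/-- Every solution of `3 ^ a + 3 ^ b + 2 = (6 j + 2) ^ 5` with `a > b > 0` odd has
`a / 3 ≤ b < 2 a / 3`. -/
theorem result (a b : ℕ) (j : ℤ) (ha : Odd a) (hb : Odd b) (hab : b < a)
    (h : (3 : ℤ) ^ a + 3 ^ b + 2 = (6 * j + 2) ^ 5) : a ≤ 3 * b ∧ 3 * b < 2 * a := by
  rw [Nat.odd_iff] at ha hb
  have h1 : 3 ^ a + 3 ^ b + 2 = (6 * j + 2).natAbs ^ 5 := by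
    rw [← Int.natAbs_pow, ← h]
    exact_mod_cast (Int.natAbs_natCast _).symm
  have h2 := small h1 ha hb hab
  have h3 := classes h1 ha hb
  constructor
  · by_contra h4
    have h5 : ¬ a < 21900 := fun h5 => h4 (h2.1 h5)
    obtain ⟨k, e, rfl, h6, h7⟩ : ∃ k e, a = 5 * k + 3 * e ∧ 1 ≤ e ∧ e ≤ 2 := by
      simp only [List.mem_cons, Prod.mk.injEq, List.not_mem_nil, or_false] at h3
      by_cases h6 : a % 5 = 3
      exacts [⟨a / 5, 1, by omega, by omega, by omega⟩, ⟨a / 5 - 1, 2, by omega, by omega, by omega⟩]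
    have := lower (t := (k + 20) / 21) h hab (by omega) h6 h7 (by omega) (by omega)
    omega
  · by_contra h4
    have h5 : ¬ a < 4200 := fun h5 => h4 (h2.2 h5)
    have := upper (t := (a + 144) / 219) h hab (by omega) (by omega)
    omega

end Pool.Agent.Results.MP_dbc840_nt.Window
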